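import Mathlib
import Pool.Agent.Q42.NF.Deg
import Pool.Agent.Q42.PP.Disc3

/-!
# Squares in the ring generated by the Chern roots

Let `X ⊂ P^n` be a nonsingular irreducible closed subvariety of codimension `r`, let
`c_1, …, c_r` be the Chern classes of its normal bundle (so `c_r` is the degree of `X`), and let
`δ_1, …, δ_r` be the Chern roots.  If `X` is a complete intersection, the ring `A` generated by the Chern
roots is the ring of the integers.  We prove that `A` has no small quadratic elements: for every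
`ε > 0` there are `η > 0` and `n₀` such that for `n ≥ n₀` and degrees up to `exp (n ^ η)` every `θ` in `A`
with `θ ^ 2 = Δ` in `ℤ` is an integer, or `|Δ|` is at least `n ^ (4 √e - ε)`.  For instance the
discriminant of the Chern polynomial is a perfect square or at least `n ^ (4 √e - ε)`.

The proof.  By the law at the prime powers (`Pool.Agent.Q42.PP.Law`) the elements of `A` are
integers modulo `p ^ k`, in every valuation ring of `ℂ` above `p`, for all primes `p > 2 ^ r + r` and all
`k` with `(r (v + 1) + 2 ^ (r + 1) + 2 r + 1) p ^ k ≤ n`, where `p ^ (v + 1)` does not divide `c_r`.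
So either `p ^ (2 k)` divides `Δ`, or the squarefree part of `Δ` is a nonzero square modulo `p`
(`bad_prime`).  If `|Δ|` is at most `n ^ 7` the first case occurs for a bounded number of primes
only.  For all other primes up to `n ^ (1 - 2 η)` the quadratic character of the
squarefree part of `Δ` is `1`, and the Burgess-Vinogradov bound for the least nonresidue with a bounded
number of exceptional primes (`Pool.Agent.Q49.RB.NR`) gives the lower bound for `|Δ|`.
-/

set_option autoImplicit false

namespace Pool.Agent.Results.MP_014caa_ag.ChernRootRing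

open Finset Pool.Agent.Q42.SM Pool.Agent.Q42.PP

/-- **Squares in the ring generated by the Chern roots.** -/
theorem result (r : ℕ) (hr : 1 ≤ r) (ε : ℝ) (hε : 0 < ε) : ∃ η : ℝ, 0 < η ∧ ∃ n₀ : ℕ,
    ∀ n : ℕ, n₀ ≤ n → ∀ I : Ideal (Poly n), IsSmoothVariety n r I →
    ∀ (c : ℕ → ℤ) (δ : Fin r → ℂ), IsNormalChern r I c δ →
    |((c r : ℤ) : ℝ)| ≤ Real.exp ((n : ℝ) ^ η) →
    ∀ θ ∈ Algebra.adjoin ℤ (Set.range δ), ∀ Δ : ℤ, θ ^ 2 = Δ →
      (∃ m : ℤ, θ = m) ∨ (n : ℝ) ^ (4 * Real.exp (1 / 2) - ε) ≤ |(Δ : ℝ)| := by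
  obtain ⟨η, hη, n₀, h⟩ := disc_num r hr ε hε
  refine ⟨η, hη, n₀, fun n hn I hI c δ hc hle θ hθ Δ hΔ => ?_⟩
  by_cases hsq : IsSquare Δ
  · left
    obtain ⟨m, hm⟩ := hsq
    have h1 : (θ - m) * (θ + m) = 0 := by
      have h2 : θ ^ 2 = (m : ℂ) * m := by
        rw [hΔ, hm]
        push_cast
        ring
      linear_combination h2
    rcases mul_eq_zero.1 h1 with h2 | h2
    · exact ⟨m, sub_eq_zero.1 h2⟩
    · refine ⟨-m, ?_⟩
      push_cast
      linear_combination h2
  · right
    exact h n hn c δ hc.1 (integral_of_chern hc) (Pool.Agent.Q42.NF.deg_ne_zero hI hc) hle θ hθ Δ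
      hΔ hsq

end Pool.Agent.Results.MP_014caa_ag.ChernRootRing
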