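import Mathlib
import Pool.Agent.Q42.NF.Fix
import Pool.Agent.Q42.SM.Integ

/-!
# Chern roots in a fixed number field

Let `X ⊂ P^n` be a nonsingular irreducible closed subvariety of codimension `r`, let
`c_1 h, …, c_r h ^ r` be the Chern classes of its normal bundle and `δ_1, …, δ_r` its Chern roots. For a
complete intersection the Chern roots are the degrees of the equations, so they are integers. Fix a
number field `L ⊂ ℂ`. For large `n`, every Chern root in `L` is an integer if the Chern classes are
less than exponentially large: `|c_j| ≤ exp (κ j n)` with any `κ < κ_r`, `κ_2 = 1 / 2` and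
`κ_r = 2 (r - 1) / (r ^ 2 (r + 1))` for `r ≥ 3`.

The proof. Let `δ` be a Chern root which generates a field `E` of degree `m ≥ 2`, and let `t` be the
index of `ℤ[δ]` in the ring of integers of `E`. By the theorem on the Chern polynomial modulo the primes
(integrality of the Hilbert polynomial) all reductions of all conjugates of `δ` modulo prime ideals
above `p`, `2 ^ r < p ≤ n + 1 - 2 ^ r`, lie in the prime field, if `p` does not divide `c_r` or if `r = 2`.
So if `p` divides neither `c_r` nor `t` nor the discriminant of `E`, then all residue fields of `E` at `p`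
are prime fields and `p` splits completely in `E`. Hence `t c_r` (or `t`, if `r = 2`) is divisible by
all other primes in this range, and by the prime ideal theorem their product is at least
`exp ((1 - 1 / m - o(1)) n)`. On the other hand `t` is at most the product of the differences of the
`m ≤ r` conjugates of `δ`, which are bounded by the Chern classes.
-/

set_option autoImplicit false

namespace Pool.Agent.Results.MP_014caa_ag.ChernRootsInFixedField

open Finset Polynomial Pool.Agent.Q42.SM

/-- **Chern roots in a fixed number field are integers.** -/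
theorem result (L : IntermediateField ℚ ℂ) [FiniteDimensional ℚ L] (r : ℕ) (hr : 2 ≤ r) (κ : ℝ)
    (hκ : κ < if r = 2 then 1 / 2 else 2 * ((r : ℝ) - 1) / ((r : ℝ) ^ 2 * ((r : ℝ) + 1))) :
    ∃ n₀ : ℕ, ∀ n ≥ n₀, ∀ I : Ideal (Poly n), IsSmoothVariety n r I →
      ∀ (c : ℕ → ℤ) (δ : Fin r → ℂ), IsNormalChern r I c δ →
      (∀ j, 1 ≤ j → j ≤ r → |(c j : ℝ)| ≤ Real.exp (κ * j * n)) →
      ∀ i, δ i ∈ L → ∃ d : ℤ, δ i = d := by
  have h0 : max κ 0 < Pool.Agent.Q42.NF.kap r := by
    refine max_lt hκ ?_
    unfold Pool.Agent.Q42.NF.kap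
    split_ifs with h
    · norm_num
    · have h1 : (2 : ℝ) ≤ r := by exact_mod_cast hr
      have h2 : (0 : ℝ) < 2 * ((r : ℝ) - 1) := by linarith
      positivity
  obtain ⟨n₀, hn₀⟩ := Filter.eventually_atTop.1
    (Pool.Agent.Q42.NF.roots_int L r (max κ 0) (le_max_right _ _) h0)
  refine ⟨n₀, fun n hn I hI c δ hδ hc i hi => ?_⟩
  refine hn₀ n hn δ c hδ.1 (integral_of_chern hδ) (Pool.Agent.Q42.NF.deg_ne_zero hI hδ)
    (fun j h1 h2 => (hc j h1 h2).trans (Real.exp_le_exp.2 ?_)) i hi
  gcongr
  exact le_max_left _ _

end Pool.Agent.Results.MP_014caa_ag.ChernRootsInFixedField
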