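import Mathlib
import Pool.Agent.Q49.RB.Hilb

/-!
# Fano manifolds of small codimension are numerically complete intersections

Let `X ⊂ P^n` be a nonsingular irreducible closed subvariety of codimension `r ≥ 2` with
`K_X = -a H`, `a ≥ 1`, where `H` is the hyperplane class, and let `P` be its Hilbert polynomial.
Suppose that `P(k) = 0` for `-a < k < 0`, and that `P(k) = binomial (n + k, n)` for `0 ≤ k < s`.  (By
Kodaira's vanishing theorem, the first condition holds for all Fano manifolds, and the second one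
means for them that the forms of degree less than `s` on `P^n` and the sections of `O_X(k)`, `k < s`,
are the same.)  If `a + 2 s + 1 ≥ 2 ^ r`, there are integers `d_1, …, d_r ≥ s` such that the Chern
classes of the normal bundle of `X` and the Hilbert polynomial of `X` are those of a complete
intersection of type `(d_1, …, d_r)`.

The proof.  Let `δ_i` be the Chern roots of the normal bundle and `δ_S` the sum of the `δ_i`,
`i ∈ S`, so that `P(k) = ∑ (-1) ^ |S| binomial (n + k - δ_S, n)`.  By duality, the sum over the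
subsets `S` different from the empty set and the whole set vanishes at the `a + 2 s - 1` consecutive
integers `k` with `-a - s < k < s`.  The vectors of the values of `binomial (n + k - x, n)` at
`2 ^ r - 2` consecutive integers `k` are linearly independent for any `2 ^ r - 2` different `x` which
are not integers, and the same is true with the integers `x < s`.  So the sum of the signs of the
`S` with `δ_S = x` is zero for all such `x`.  If some `δ_i` is not an integer, it is not rational, and
there is a rational linear functional on the complex numbers, zero on the rational numbers and not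
on `δ_i`; perturbing it by a multiple of the real part, one finds a number `x`, not an integer, with
`δ_S = x` for exactly one `S`.  This is a contradiction.
-/

set_option autoImplicit false

namespace Pool.Agent.Results.MP_014caa_ag.FanoNumerical

open Finset

/-- The polynomial ring `ℂ[x_0, …, x_n]`. -/
abbrev Poly (n : ℕ) : Type := MvPolynomial (Fin (n + 1)) ℂ

/-- The common zeros in `ℂ^(n + 1)` of the polynomials in `I`: the affine cone over the projective
variety `X` when `I` is the homogeneous ideal of `X`. -/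
def cone {n : ℕ} (I : Ideal (Poly n)) : Set (Fin (n + 1) → ℂ) :=
  {x | ∀ F ∈ I, MvPolynomial.eval x F = 0}

/-- The conormal space of `X` at `x`: the span of the gradients at `x` of the elements of `I`. -/
noncomputable def conormal {n : ℕ} (I : Ideal (Poly n)) (x : Fin (n + 1) → ℂ) :
    Submodule ℂ (Fin (n + 1) → ℂ) :=
  Submodule.span ℂ {ξ | ∃ F ∈ I, ξ = fun i => MvPolynomial.eval x (MvPolynomial.pderiv i F)}

/-- `I` is the homogeneous ideal of a nonsingular irreducible closed subvariety `X` of
codimension `r` of the complex projective space `P^n`: it is a homogeneous prime ideal, `X` is not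
empty, and at every point of `X` the gradients of the elements of `I` span a space of dimension
`r` (Jacobian criterion). -/
structure IsSmoothVariety (n r : ℕ) (I : Ideal (Poly n)) : Prop where
  prime : I.IsPrime
  homogeneous : ∀ F ∈ I, ∀ d, MvPolynomial.homogeneousComponent d F ∈ I
  nonempty : ∃ x ∈ cone I, x ≠ 0
  smooth : ∀ x ∈ cone I, x ≠ 0 → Module.finrank ℂ (conormal I x) = r

/-- The Hilbert function of `X`: the dimension of the space of the elements of degree `k` of
the homogeneous coordinate ring. -/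
noncomputable def hilb {n : ℕ} (I : Ideal (Poly n)) (k : ℕ) : ℕ :=
  Module.finrank ℂ ((MvPolynomial.homogeneousSubmodule (Fin (n + 1)) ℂ k).map
    (Ideal.Quotient.mkₐ ℂ I).toLinearMap)

/-- `P` is the Hilbert polynomial of `X`. -/
def IsHilbertPolynomial {n : ℕ} (I : Ideal (Poly n)) (P : Polynomial ℚ) : Prop :=
  ∃ k₀ : ℕ, ∀ k ≥ k₀, (hilb I k : ℚ) = P.eval (k : ℚ)

/-- the binomial coefficient `x (x - 1) ⋯ (x - m + 1) / m!` of a complex number `x` -/
noncomputable def binomial (x : ℂ) (m : ℕ) : ℂ :=
  (∏ i ∈ range m, (x - i)) / (m.factorial : ℂ)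

open Polynomial in
/-- `c_1 h, …, c_r h ^ r` are the Chern classes of the normal bundle of `X`, where `h` is the
hyperplane class, in terms of the Hilbert function: `1 + c_1 T + ⋯ + c_r T ^ r` is the product of
the `1 + δ_i T`, with the Chern roots `δ_i`, and by Hirzebruch-Riemann-Roch the Hilbert polynomial
of `X` is the alternating sum of the binomial coefficients `(n + k - ∑_{i ∈ S} δ_i, n)`, where `S`
are the subsets of `{1, …, r}`. -/
def HasNormalChernClasses {n : ℕ} (r : ℕ) (I : Ideal (Poly n)) (c : ℕ → ℤ) : Prop :=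
  ∃ δ : Fin r → ℂ,
    ∏ i, (1 + C (δ i) * X) = ∑ j ∈ range (r + 1), C ((c j : ℤ) : ℂ) * X ^ j ∧
    ∃ k₀ : ℕ, ∀ k ≥ k₀, (hilb I k : ℂ) =
      ∑ S : Finset (Fin r), (-1) ^ S.card * binomial (n + k - ∑ i ∈ S, δ i) n

theorem hilb_pos {n r : ℕ} {I : Ideal (Poly n)} (hI : IsSmoothVariety n r I) (k : ℕ) :
    0 < hilb I k := by
  obtain ⟨x, hx, hx0⟩ := hI.nonempty
  obtain ⟨j, hj⟩ : ∃ j, x j ≠ 0 := by
    by_contra hcon
    push Not at hcon
    exact hx0 (funext hcon)
  have hfin : Module.Finite ℂ ((MvPolynomial.homogeneousSubmodule (Fin (n + 1)) ℂ k).map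
      (Ideal.Quotient.mkₐ ℂ I).toLinearMap) :=
    Module.Finite.iff_fg.2 ((MvPolynomial.homogeneousSubmodule_fg _ _ k).map _)
  unfold hilb
  rw [Module.finrank_pos_iff_exists_ne_zero]
  have hmem : (MvPolynomial.X j : Poly n) ^ k ∈
      MvPolynomial.homogeneousSubmodule (Fin (n + 1)) ℂ k := by
    rw [MvPolynomial.mem_homogeneousSubmodule]
    simpa using (MvPolynomial.isHomogeneous_X ℂ j).pow k
  refine ⟨⟨_, Submodule.mem_map_of_mem hmem⟩, ?_⟩
  intro h0
  have h1 : (Ideal.Quotient.mkₐ ℂ I) ((MvPolynomial.X j : Poly n) ^ k) = 0 :=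
    congrArg Subtype.val h0
  rw [Ideal.Quotient.mkₐ_eq_mk, Ideal.Quotient.eq_zero_iff_mem] at h1
  have h2 := hx _ h1
  rw [map_pow, MvPolynomial.eval_X] at h2
  exact pow_ne_zero k hj h2

open Polynomial in
/-- **Fano manifolds of small codimension.** -/
theorem result (n r : ℕ) (hr : 2 ≤ r) (hn : 2 ^ r ≤ n + 3) (I : Ideal (Poly n))
    (hI : IsSmoothVariety n r I) (c : ℕ → ℤ) (hc : HasNormalChernClasses r I c)
    (P : ℚ[X]) (hP : IsHilbertPolynomial I P)
    -- `K_X = -a H`, that is, `c_1(N_X) = (n + 1 - a) h`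
    (a : ℕ) (ha : 1 ≤ a) (hK : c 1 = n + 1 - a)
    (hneg : ∀ k : ℤ, -(a : ℤ) < k → k < 0 → P.eval (k : ℚ) = 0)
    (s : ℕ) (hs : 1 ≤ s) (has : a + s ≤ n + 1)
    (hpos : ∀ k : ℕ, k < s → P.eval (k : ℚ) = (n + k).choose n)
    (hlen : 2 ^ r ≤ a + 2 * s + 1) :
    ∃ d : Fin r → ℕ, (∀ i, s ≤ d i) ∧
      -- the Chern classes of the normal bundle
      ∏ i, (1 + C (d i : ℤ) * X) = ∑ j ∈ range (r + 1), C (c j) * (X : ℤ[X]) ^ j ∧
      -- the Hilbert polynomial
      ∀ k : ℤ, ((P.eval (k : ℚ) : ℚ) : ℂ) =
        ∑ S : Finset (Fin r), (-1) ^ S.card * binomial (n + k - ∑ i ∈ S, (d i : ℂ)) n := by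
  obtain ⟨δ, hδ, k₀, hk⟩ := hc
  obtain ⟨k₁, hk₁⟩ := hP
  have hbin : ∀ x : ℂ, ∀ m : ℕ, binomial x m = Pool.Agent.Q49.RB.bin x m := fun _ _ => rfl
  have hPS : ∀ k : ℤ, ((P.eval (k : ℚ) : ℚ) : ℂ) = Pool.Agent.Q49.RB.PS n δ k := by
    refine Pool.Agent.Q49.RB.hilb_eq n δ P (max k₀ k₁) fun k hk' => ?_
    have h1 := hk k ((le_max_left _ _).trans hk')
    have h2 := hk₁ k ((le_max_right _ _).trans hk')
    rw [← h2]
    unfold Pool.Agent.Q49.RB.PS
    push_cast
    rw [h1]
    rfl
  have hne : ∀ i, δ i ≠ 0 := by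
    intro i hi
    have h1 := hk k₀ le_rfl
    have h2 := Pool.Agent.Q49.RB.alt_zero i hi (fun x => binomial (n + k₀ - x) n)
    unfold Pool.Agent.Q49.RB.sg at h2
    rw [h2] at h1
    have h3 := hilb_pos hI k₀
    have h4 : hilb I k₀ = 0 := by exact_mod_cast h1
    omega
  have hsum : ∑ i, δ i = (n : ℂ) + 1 - a := by
    rw [Pool.Agent.Q49.RB.sum_root hδ (by omega), hK]
    push_cast
    ring
  obtain ⟨d, hds, hd⟩ := Pool.Agent.Q49.RB.fano hr n hn δ
    (Pool.Agent.Q49.RB.root_integral hδ) hne a s ha hs has hsum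
    (fun k hk1 hk2 => by
      rw [← hPS, hneg k hk1 hk2]
      simp)
    (fun k hk1 hk2 => by
      obtain ⟨l, rfl⟩ := Int.eq_ofNat_of_zero_le hk1
      have h1 := hpos l (by exact_mod_cast hk2)
      have h2 := hPS (l : ℤ)
      rw [← h2]
      push_cast
      rw [h1]
      have h3 := Pool.Agent.Q49.RB.bin_nat (n + l) n
      push_cast at h3 ⊢
      exact h3.symm) hlen
  have hdn : ∀ i, 0 ≤ d i := fun i => le_trans (by positivity) (hds i)
  choose e he using fun i => Int.eq_ofNat_of_zero_le (hdn i)
  refine ⟨e, fun i => ?_, ?_, ?_⟩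
  · have := hds i
    rw [he] at this
    exact_mod_cast this
  · exact Pool.Agent.Q49.RB.int_prod hδ (fun i => (e i : ℤ)) (fun i => by rw [hd, he])
  · intro k
    rw [hPS]
    unfold Pool.Agent.Q49.RB.PS
    refine sum_congr rfl fun S _ => ?_
    have h1 : ∑ i ∈ S, δ i = ∑ i ∈ S, (e i : ℂ) :=
      sum_congr rfl fun i _ => by rw [hd, he]; simp
    rw [h1]
    rfl

end Pool.Agent.Results.MP_014caa_ag.FanoNumerical
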