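import Mathlib
import Pool.Agent.Q42.FD.Main

/-!
# Sparse degrees of smooth subvarieties, in an exponential range

Fix the codimension `r ≥ 2` and the Chern classes `c_1 h, …, c_{r-1} h ^ (r-1)` of the normal
bundle, and consider the nonsingular irreducible closed subvarieties of codimension `r` of the `P^n`,
`n ≥ N`, with these Chern classes, and their degrees `m`.  For a prime `p` with
`2 ^ r < p ≤ N + 1 - 2 ^ r` that does not divide `m`, the polynomial
`1 + c_1 T + ⋯ + c_{r-1} T ^ (r-1) + m T ^ r` splits modulo `p`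
(`Pool.Agent.Q42.SM.splits_mod`: the Hilbert polynomial has integral values).  So `m` lies in at
most `(p + r ^ 2) / r` residue classes modulo `p` (`Pool.Agent.Q42.FD.card_good`).

Let `X` be at most `exp (N ^ a)`, with a small `a`, and `k` an integer such that
`z = X ^ (1 / (2 k))` is at most `N / 2`.  The large sieve, with the products of `k` of the primes
up to `z` as moduli, bounds the number of the degrees in an interval of length `X` by
`12 X (18 k / π(z)) ^ k`, and this is at most `X ^ (1 / 2 + ε)` since `k` is at most a small power of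
`z`.
-/

set_option autoImplicit false

namespace Pool.Agent.Results.MP_014caa_ag.SparseDegrees

open Pool.Agent.Q42.SM

/-- `m` is the degree, that is, the integer with `m h ^ r` as last Chern class, and
`c_1 h, …, c_{r-1} h ^ (r-1)` are the other Chern classes of the normal bundle, of some nonsingular
irreducible closed subvariety of codimension `r` of `P^n` for some `n ≥ N` -/
def IsDegree (N r : ℕ) (c : ℕ → ℤ) (m : ℤ) : Prop :=
  ∃ n ≥ N, ∃ I : Ideal (Poly n), IsSmoothVariety n r I ∧
    HasNormalChernClasses r I (Function.update c r m)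

/-- **Sparse degrees.** -/
theorem result (r : ℕ) (hr : 2 ≤ r) (ε : ℝ) (hε : 0 < ε) :
    ∃ a K : ℝ, 0 < a ∧ 0 < K ∧
      ∀ (N : ℕ) (c : ℕ → ℤ) (M : ℤ) (X : ℕ) (T : Finset ℤ), 1 ≤ X →
      (∀ m ∈ T, M < m ∧ m ≤ M + X ∧ IsDegree N r c m) →
      (X : ℝ) ≤ Real.exp ((N : ℝ) ^ a) →
      (T.card : ℝ) ≤ K * (X : ℝ) ^ (1 / 2 + ε) :=
  Pool.Agent.Q42.FD.few_large r hr ε hε

end Pool.Agent.Results.MP_014caa_ag.SparseDegrees
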